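import Pool.Agent.H113Z.Dist.Defs

namespace Pool.Agent.H113Z.Dist
open Filter Topology Set

namespace H842

theorem ramp_neg {u : ℝ} (h : u ≤ -1) : ramp u = 0 := by
  unfold ramp
  rw [Real.smoothTransition.zero_of_nonpos (by linarith), mul_zero]

theorem ramp_pos {u : ℝ} (h : 1 ≤ u) : ramp u = u := by
  unfold ramp
  rw [Real.smoothTransition.one_of_one_le (by linarith), mul_one]

theorem wd_pos {t : ℝ} (h : 0 < t) : 0 < wd t := by
  unfold wd; positivity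

theorem wd_anti {s t : ℝ} (hs : 0 < s) (h : s ≤ t) : wd t ≤ wd s := by
  unfold wd
  exact one_div_le_one_div_of_le (by positivity) (pow_le_pow_left₀ hs.le h 14)

theorem wd_le {t : ℝ} (h : 2 ≤ t) : wd t ≤ 1 / 4 := by
  have h1 := wd_anti (s := 2) (by norm_num) h
  have h2 : wd 2 ≤ 1 / 4 := by unfold wd; norm_num
  linarith

theorem Fz_left {e n : ℕ} (hn : 1 ≤ n) {y : ℝ} (h : y ≤ 2 ^ e * ((n : ℝ) - wd n)) :
    Fz e n y = lin e n y := by
  have hn' : (0 : ℝ) < n := by exact_mod_cast hn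
  have hw := wd_pos hn'
  have hp : (0 : ℝ) < 2 ^ e * wd n := by positivity
  unfold Fz
  rw [ramp_neg, mul_zero, add_zero]
  rw [div_le_iff₀ hp]
  linarith

theorem Fz_right {e n : ℕ} (hn : 1 ≤ n) {y : ℝ} (h : 2 ^ e * ((n : ℝ) + wd n) ≤ y) :
    Fz e n y = lin e n y + kap e n * (y - 2 ^ e * n) := by
  have hn' : (0 : ℝ) < n := by exact_mod_cast hn
  have hw := wd_pos hn'
  have hp : (0 : ℝ) < 2 ^ e * wd n := by positivity
  unfold Fz
  rw [ramp_pos, mul_assoc, mul_div_cancel₀ _ hp.ne']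
  rw [le_div_iff₀ hp]
  linarith

theorem four_pow (e : ℕ) : (4 : ℝ) ^ e = 2 ^ e * 2 ^ e := by
  rw [← mul_pow]; norm_num

theorem key1 {e n : ℕ} (hn : 2 ≤ n) (h : n < 2 * e) (y : ℝ) :
    lin e n y + kap e n * (y - 2 ^ e * n) = lin e (n + 1) y := by
  have hn' : (2 : ℝ) ≤ n := by exact_mod_cast hn
  have h1 : (n : ℝ) - 1 ≠ 0 := by linarith
  have h2 : (n : ℝ) ≠ 0 := by linarith
  have h3 : (n : ℝ) + 1 ≠ 0 := by linarith
  have h4 : (4 : ℝ) ^ e ≠ 0 := by positivity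
  unfold lin kap
  rw [if_pos h]
  push_cast
  have h5 : (n : ℝ) + 1 - 1 = n := by ring
  rw [h5]
  field_simp
  ring

theorem key2 {e : ℕ} (he : 1 ≤ e) (y : ℝ) :
    lin e (2 * e) y + kap e (2 * e) * (y - 2 ^ e * ((2 * e : ℕ) : ℝ)) = lin (e + 1) (e + 1) y := by
  have hn' : (1 : ℝ) ≤ e := by exact_mod_cast he
  have h1 : 2 * (e : ℝ) - 1 ≠ 0 := by linarith
  have h2 : (e : ℝ) ≠ 0 := by linarith
  have h3 : (e : ℝ) + 1 ≠ 0 := by linarith
  have h3' : 2 * (e : ℝ) + 2 ≠ 0 := by linarith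
  have h4 : (4 : ℝ) ^ e ≠ 0 := by positivity
  unfold lin kap
  rw [if_neg (lt_irrefl _)]
  push_cast
  have h5 : (e : ℝ) + 1 - 1 = e := by ring
  have h6 : 2 * (e : ℝ) + 2 = 2 * (e + 1) := by ring
  rw [h5, h6, pow_succ, pow_succ]
  field_simp
  ring

theorem Fz_right1 {e n : ℕ} (hn : 2 ≤ n) (h : n < 2 * e) {y : ℝ}
    (hy : 2 ^ e * ((n : ℝ) + wd n) ≤ y) : Fz e n y = lin e (n + 1) y := by
  rw [Fz_right (by omega) hy, key1 hn h]

theorem Fz_right2 {e : ℕ} (he : 1 ≤ e) {y : ℝ}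
    (hy : 2 ^ e * (((2 * e : ℕ) : ℝ) + wd ((2 * e : ℕ) : ℝ)) ≤ y) :
    Fz e (2 * e) y = lin (e + 1) (e + 1) y := by
  rw [Fz_right (by omega) hy, key2 he]

def V (y : ℝ) (p : ℕ × ℕ) : Prop :=
  3 ≤ p.1 ∧ p.1 ≤ p.2 ∧ p.2 ≤ 2 * p.1 ∧ |y - 2 ^ p.1 * p.2| < 3 / 4 * 2 ^ p.1

theorem cons_same {y : ℝ} {e n n' : ℕ} (h : V y (e, n)) (h' : V y (e, n')) (hlt : n < n') :
    Fz e n y = Fz e n' y := by
  obtain ⟨h1, h2, h3, h4⟩ := h
  obtain ⟨_, h2', h3', h4'⟩ := h'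
  simp only at h1 h2 h3 h4 h2' h3' h4'
  have hp : (0 : ℝ) < 2 ^ e := by positivity
  rw [abs_lt] at h4 h4'
  have hlt2 : (n' : ℝ) < n + 2 := by
    by_contra hc
    push Not at hc
    have := mul_le_mul_of_nonneg_left hc hp.le
    nlinarith
  have hlt3 : n' < n + 2 := by exact_mod_cast hlt2
  have hn : n' = n + 1 := by omega
  subst hn
  have hn2 : (2 : ℝ) ≤ n := by exact_mod_cast (by omega : 2 ≤ n)
  have w1 := wd_le hn2
  have w2 : wd ((n + 1 : ℕ) : ℝ) ≤ 1 / 4 := wd_le (by push_cast; linarith)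
  have m1 := mul_le_mul_of_nonneg_left w1 hp.le
  have m2 := mul_le_mul_of_nonneg_left w2 hp.le
  rw [Fz_right1 (by omega) (by omega), Fz_left (by omega)]
  · push_cast at h4' m2 ⊢; nlinarith
  · push_cast at h4'; nlinarith

theorem cons_lt {y : ℝ} {e n e' n' : ℕ} (h : V y (e, n)) (h' : V y (e', n')) (hlt : e < e') :
    Fz e n y = Fz e' n' y := by
  obtain ⟨h1, h2, h3, h4⟩ := h
  obtain ⟨_, h2', h3', h4'⟩ := h'
  simp only at h1 h2 h3 h4 h2' h3' h4'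
  have hp : (0 : ℝ) < 2 ^ e := by positivity
  rw [abs_lt] at h4 h4'
  have r3 : (n : ℝ) ≤ 2 * e := by exact_mod_cast h3
  have r1 : (3 : ℝ) ≤ e := by exact_mod_cast h1
  have r2' : (e' : ℝ) ≤ n' := by exact_mod_cast h2'
  have he : e' = e + 1 := by
    by_contra hc
    obtain ⟨k, rfl⟩ : ∃ k, e' = e + 2 + k := ⟨e' - (e + 2), by omega⟩
    have hk : (1 : ℝ) ≤ 2 ^ k := one_le_pow₀ (by norm_num)
    have hk0 : (0 : ℝ) ≤ k := Nat.cast_nonneg k
    push_cast at r2'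
    have e1 : (2 : ℝ) ^ (e + 2 + k) = 2 ^ e * (4 * 2 ^ k) := by rw [pow_add, pow_add]; ring
    rw [e1] at h4'
    have a1 : 4 * ((e : ℝ) + 5 / 4) ≤ 4 * 2 ^ k * ((n' : ℝ) - 3 / 4) := by nlinarith
    have a2 := mul_le_mul_of_nonneg_left a1 hp.le
    nlinarith
  subst he
  push_cast at r2'
  rw [pow_succ] at h4'
  have hlt2 : 2 * (n' : ℝ) < n + 3 := by
    by_contra hc
    push Not at hc
    have := mul_le_mul_of_nonneg_left hc hp.le
    nlinarith
  have hlt3 : 2 * n' < n + 3 := by exact_mod_cast hlt2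
  have hn : n = 2 * e := by omega
  have hn' : n' = e + 1 := by omega
  subst hn hn'
  have w1 : wd ((2 * e : ℕ) : ℝ) ≤ 1 / 4 := wd_le (by push_cast; linarith)
  have w2 : wd ((e + 1 : ℕ) : ℝ) ≤ 1 / 4 := wd_le (by push_cast; linarith)
  have m1 := mul_le_mul_of_nonneg_left w1 hp.le
  have m2 := mul_le_mul_of_nonneg_left w2 hp.le
  rw [Fz_right2 (by omega), Fz_left (by omega)]
  · rw [pow_succ]; push_cast at h4 h4' m2 ⊢; nlinarith
  · push_cast at h4 h4' m1 ⊢; nlinarith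

theorem cons {y : ℝ} {p q : ℕ × ℕ} (h : V y p) (h' : V y q) : Fz p.1 p.2 y = Fz q.1 q.2 y := by
  obtain ⟨e, n⟩ := p
  obtain ⟨e', n'⟩ := q
  rcases lt_trichotomy e e' with h1 | h1 | h1
  · exact cons_lt h h' h1
  · subst h1
    rcases lt_trichotomy n n' with h2 | h2 | h2
    · exact cons_same h h' h2
    · subst h2; rfl
    · exact (cons_same h' h h2).symm
  · exact (cons_lt h' h h1).symm

theorem exz : ∃ z, ZLoc z := by
  classical
  refine ⟨fun y => if h : ∃ p, V y p then Fz h.choose.1 h.choose.2 y else 0, ?_⟩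
  intro e n h1 h2 h3 y h4
  have hv : V y (e, n) := ⟨h1, h2, h3, h4⟩
  have hex : ∃ p, V y p := ⟨_, hv⟩
  simp only [dif_pos hex]
  exact cons hex.choose_spec hv

theorem block (e k : ℕ) (c y : ℝ) (hc : 0 < c) (h1 : c * ((e : ℝ) - 11 / 16) ≤ y)
    (h2 : y ≤ c * ((e : ℝ) + k + 11 / 16)) :
    ∃ n : ℕ, e ≤ n ∧ n ≤ e + k ∧ |y - c * n| ≤ 11 / 16 * c := by
  induction k with
  | zero =>
    refine ⟨e, le_rfl, le_rfl, ?_⟩
    rw [abs_le]; push_cast at h2; constructor <;> nlinarith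
  | succ k ih =>
    by_cases h : y ≤ c * ((e : ℝ) + k + 11 / 16)
    · obtain ⟨n, a, b, d⟩ := ih h
      exact ⟨n, a, by omega, d⟩
    · push Not at h
      refine ⟨e + (k + 1), by omega, le_rfl, ?_⟩
      rw [abs_le]; push_cast at h2 ⊢; constructor <;> nlinarith

theorem coverE (j : ℕ) (y : ℝ) (h1 : 24 ≤ y)
    (h2 : y ≤ 2 ^ (3 + j) * (((3 + j : ℕ) : ℝ) + (3 + j : ℕ) + 11 / 16)) :
    ∃ e n : ℕ, 3 ≤ e ∧ e ≤ n ∧ n ≤ 2 * e ∧ |y - 2 ^ e * n| ≤ 11 / 16 * 2 ^ e := by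
  induction j with
  | zero =>
    obtain ⟨n, a, b, d⟩ := block 3 3 (2 ^ 3) y (by norm_num) (by norm_num; linarith) h2
    exact ⟨3, n, le_rfl, a, by omega, d⟩
  | succ j ih =>
    by_cases h : y ≤ 2 ^ (3 + j) * (((3 + j : ℕ) : ℝ) + (3 + j : ℕ) + 11 / 16)
    · exact ih h
    · push Not at h
      have hp : (0 : ℝ) < 2 ^ (3 + j) := by positivity
      obtain ⟨n, a, b, d⟩ := block (3 + (j + 1)) (3 + (j + 1)) (2 ^ (3 + (j + 1))) y
        (by positivity) (by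
          rw [← add_assoc, pow_succ]; push_cast at h ⊢; nlinarith) h2
      exact ⟨3 + (j + 1), n, by omega, a, by omega, d⟩

theorem cover : Cover := by
  intro y hy
  refine coverE ⌈y⌉₊ y hy ?_
  have h1 : (1 : ℝ) ≤ 2 ^ (3 + ⌈y⌉₊) := one_le_pow₀ (by norm_num)
  have h2 := Nat.le_ceil y
  push_cast
  nlinarith

theorem clause1 {z : ℝ → ℝ} (hz : ZLoc z) (e n : ℕ) (he : 4 ≤ e) (h1 : e ≤ n) (h2 : n ≤ 2 * e)
    (y : ℝ) (h3 : 2 ^ e * ((n : ℝ) - 1 + wd ((n : ℝ) - 1)) ≤ y)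
    (h4 : y ≤ 2 ^ e * ((n : ℝ) - wd n)) : z y = lin e n y := by
  have hp : (0 : ℝ) < 2 ^ e := by positivity
  have rn : (4 : ℝ) ≤ n := by exact_mod_cast (by omega : 4 ≤ n)
  have w0 : 0 < wd (n : ℝ) := wd_pos (by linarith)
  have w1 : 0 < wd ((n : ℝ) - 1) := wd_pos (by linarith)
  have m0 := mul_pos hp w0
  have m1 := mul_pos hp w1
  by_cases hy : 2 ^ e * ((n : ℝ) - 3 / 4) < y
  · rw [hz e n (by omega) h1 h2 y (by rw [abs_lt]; constructor <;> nlinarith),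
      Fz_left (by omega) h4]
  · push Not at hy
    rcases Nat.lt_or_ge e n with h5 | h5
    · obtain ⟨m, rfl⟩ : ∃ m, n = m + 1 := ⟨n - 1, by omega⟩
      have c1 : ((m + 1 : ℕ) : ℝ) - 1 = m := by push_cast; ring
      rw [c1] at h3 m1
      push_cast at hy
      rw [hz e m (by omega) (by omega) (by omega) y (by rw [abs_lt]; constructor <;> nlinarith),
        Fz_right1 (by omega) (by omega) h3]
    · have : n = e := by omega
      subst this
      obtain ⟨m, rfl⟩ : ∃ m, n = m + 1 := ⟨n - 1, by omega⟩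
      have c1 : ((m + 1 : ℕ) : ℝ) - 1 = m := by push_cast; ring
      rw [c1] at h3 m1
      push_cast at hy rn
      rw [pow_succ] at hy h3 m1
      have hq : (0 : ℝ) < 2 ^ m := by positivity
      have w2 : wd ((2 * m : ℕ) : ℝ) ≤ wd (m : ℝ) :=
        wd_anti (by linarith) (by push_cast; linarith)
      have m2 := mul_le_mul_of_nonneg_left w2 hq.le
      rw [hz m (2 * m) (by omega) (by omega) le_rfl y
        (by rw [abs_lt]; push_cast; constructor <;> nlinarith), Fz_right2 (by omega)]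
      push_cast at m2 ⊢
      nlinarith

theorem Fz_scale {e i n : ℕ} (hn : 2 ≤ n) (h : n < 2 * e) (y : ℝ) :
    Fz (e + i) n (2 ^ i * y) = Fz e n y / 2 ^ i := by
  have hn' : (2 : ℝ) ≤ n := by exact_mod_cast hn
  have h1 : (n : ℝ) - 1 ≠ 0 := by linarith
  have h2 : (n : ℝ) ≠ 0 := by linarith
  have h3 : (n : ℝ) + 1 ≠ 0 := by linarith
  have hw : wd (n : ℝ) ≠ 0 := (wd_pos (by linarith)).ne'
  have a : (2 ^ i * y - 2 ^ (e + i) * (n : ℝ)) / (2 ^ (e + i) * wd n) =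
      (y - 2 ^ e * n) / (2 ^ e * wd n) := by
    rw [pow_add]; field_simp
  unfold Fz
  rw [a]
  generalize ramp ((y - 2 ^ e * n) / (2 ^ e * wd n)) = r
  unfold lin kap
  rw [if_pos h, if_pos (by omega), four_pow, four_pow, pow_add]
  field_simp

theorem D2_lin (e n : ℕ) (y : ℝ) : D 2 (lin e n) y = 0 := by
  have h : deriv (lin e n) = fun _ => -1 / (4 ^ e * (n : ℝ) * ((n : ℝ) - 1)) := by
    funext x
    have := ((hasDerivAt_id x).const_sub (2 ^ e * (2 * (n : ℝ) - 1))).div_const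
      (4 ^ e * (n : ℝ) * ((n : ℝ) - 1))
    exact this.deriv
  unfold D
  rw [iteratedDeriv_succ, iteratedDeriv_one, h]
  simp

theorem pick (e k : ℕ) (c y : ℝ) (h1 : c * ((e : ℝ) - 1) ≤ y)
    (h2 : y ≤ c * ((e : ℝ) + k)) :
    ∃ n : ℕ, e ≤ n ∧ n ≤ e + k ∧ c * ((n : ℝ) - 1) ≤ y ∧ y ≤ c * n := by
  induction k with
  | zero => exact ⟨e, le_rfl, le_rfl, h1, by simpa using h2⟩
  | succ k ih =>
    by_cases h : y ≤ c * ((e : ℝ) + k)
    · obtain ⟨n, a, b, d⟩ := ih h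
      exact ⟨n, a, by omega, d⟩
    · push Not at h
      refine ⟨e + (k + 1), by omega, le_rfl, ?_, by push_cast at h2 ⊢; exact h2⟩
      push_cast
      have : (e : ℝ) + (k + 1) - 1 = e + k := by ring
      rw [this]; exact h.le

theorem piece {z : ℝ → ℝ} (hz : ZLoc z) (e : ℕ) (he : 4 ≤ e) (y : ℝ)
    (h1 : 2 ^ e * ((e : ℝ) - 1) ≤ y) (h2 : y ≤ 2 ^ e * ((e : ℝ) + e))
    (h3 : ∀ m : ℤ, 2 ^ e * wd ((e : ℝ) - 1) < |y - 2 ^ e * m|) : D 2 z y = 0 := by
  obtain ⟨n, a, b, c, d⟩ := pick e e (2 ^ e) y h1 h2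
  have hp : (0 : ℝ) < 2 ^ e := by positivity
  have re : (4 : ℝ) ≤ e := by exact_mod_cast he
  have ra : (e : ℝ) ≤ n := by exact_mod_cast a
  have u1 := h3 ((n : ℤ) - 1)
  have u2 := h3 (n : ℤ)
  push_cast at u1 u2
  rw [abs_of_nonneg (by linarith)] at u1
  rw [abs_of_nonpos (by linarith)] at u2
  have w1 : wd ((n : ℝ) - 1) ≤ wd ((e : ℝ) - 1) := wd_anti (by linarith) (by linarith)
  have w2 : wd (n : ℝ) ≤ wd ((e : ℝ) - 1) := wd_anti (by linarith) (by linarith)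
  have m1 := mul_le_mul_of_nonneg_left w1 hp.le
  have m2 := mul_le_mul_of_nonneg_left w2 hp.le
  have hev : z =ᶠ[𝓝 y] lin e n := by
    have hm : Ioo (2 ^ e * ((n : ℝ) - 1 + wd ((n : ℝ) - 1))) (2 ^ e * ((n : ℝ) - wd n)) ∈ 𝓝 y :=
      Ioo_mem_nhds (by nlinarith) (by nlinarith)
    filter_upwards [hm] with x hx
    exact clause1 hz e n he a (by omega) x hx.1.le hx.2.le
  have := hev.iteratedDeriv_eq 2
  unfold D
  rw [this]
  exact D2_lin e n y

theorem z235 {z : ℝ → ℝ} (hz : ZLoc z) : Z235 z := by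
  refine ⟨4, clause1 hz, ?_, ?_⟩
  · intro e i n he h1 h2 y h3
    have hp : (0 : ℝ) < 2 ^ e := by positivity
    have hq : (0 : ℝ) < 2 ^ i := by positivity
    rw [hz e n (by omega) (by omega) (by omega) y (by linarith),
      hz (e + i) n (by omega) h1 (by omega) (2 ^ i * y) ?_, Fz_scale (by omega) h2]
    have : 2 ^ i * y - 2 ^ (e + i) * (n : ℝ) = 2 ^ i * (y - 2 ^ e * n) := by rw [pow_add]; ring
    rw [this, abs_mul, abs_of_pos hq, pow_add]
    have := mul_le_mul_of_nonneg_left h3 hq.le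
    have := mul_pos hp hq
    nlinarith
  · intro e he y h1 h2 h3
    have hp : (0 : ℝ) < 2 ^ e := by positivity
    have re : (4 : ℝ) ≤ e := by exact_mod_cast he
    have w0 : 0 < wd ((e : ℝ) - 1) := wd_pos (by linarith)
    by_cases h : y ≤ 2 ^ e * ((e : ℝ) + e)
    · refine piece hz e he y h1 h fun m => lt_of_le_of_lt ?_ (h3 m)
      rw [pow_succ]
      have := mul_pos hp w0
      nlinarith
    · push Not at h
      refine piece hz (e + 1) (by omega) y ?_ ?_ fun m => ?_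
      · rw [pow_succ]; push_cast; nlinarith
      · refine h2.trans (le_of_eq ?_); push_cast; ring
      · have u := h3 (2 * m)
        have c : (2 : ℝ) ^ e * ((2 * m : ℤ) : ℝ) = 2 ^ (e + 1) * m := by
          rw [pow_succ]; push_cast; ring
        rw [c] at u
        refine lt_of_le_of_lt ?_ u
        refine mul_le_mul_of_nonneg_left (wd_anti (by linarith) ?_) (by positivity)
        push_cast; linarith

end H842

theorem zloc : (∃ z, ZLoc z) ∧ Cover ∧ ∀ z, ZLoc z → Z235 z :=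
  ⟨H842.exz, H842.cover, fun _ hz => H842.z235 hz⟩

end Pool.Agent.H113Z.Dist
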